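import Pool.Agent.helper17.CH.SpecV

set_option autoImplicit false

namespace Pool.Agent.CH

open Finset ArithmeticFunction
open Pool.Agent.helper74.TG (ee gb)
open Pool.Agent.helper39.MT (GG)

private theorem DYS_norm (t x : ℝ) : ‖nit t x‖ = 1 := by
  unfold nit
  rw [Complex.norm_exp]
  simp

private theorem DYS_shift (f : ℕ → ℂ) (hf : ∀ n, ‖f n‖ ≤ 1) (N N' h : ℕ) (hN : N ≤ N') :
    ‖∑ n ∈ Ioc N N', f n - ∑ n ∈ Ioc N N', f (n + h)‖ ≤ 2 * h := by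
  have e1 : ∑ n ∈ Ioc N N', f (n + h) = ∑ n ∈ Ioc (N + h) (N' + h), f n := by
    rw [← Finset.map_add_right_Ioc, Finset.sum_map]
    rfl
  have e2 := Finset.sum_Ioc_consecutive f hN (Nat.le_add_right N' h)
  have e3 := Finset.sum_Ioc_consecutive f (Nat.le_add_right N h) (Nat.add_le_add_right hN h)
  have e4 : ∑ n ∈ Ioc N N', f n - ∑ n ∈ Ioc N N', f (n + h) =
      ∑ n ∈ Ioc N (N + h), f n - ∑ n ∈ Ioc N' (N' + h), f n := by
    rw [e1]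
    have : ∑ n ∈ Ioc N N', f n + ∑ n ∈ Ioc N' (N' + h), f n =
        ∑ n ∈ Ioc N (N + h), f n + ∑ n ∈ Ioc (N + h) (N' + h), f n := by rw [e2, e3]
    linear_combination this
  rw [e4]
  have b : ∀ a : ℕ, ‖∑ n ∈ Ioc a (a + h), f n‖ ≤ h := by
    intro a
    refine (norm_sum_le _ _).trans ?_
    refine (Finset.sum_le_sum fun n _ => hf n).trans ?_
    simp
  calc ‖∑ n ∈ Ioc N (N + h), f n - ∑ n ∈ Ioc N' (N' + h), f n‖
      ≤ ‖∑ n ∈ Ioc N (N + h), f n‖ + ‖∑ n ∈ Ioc N' (N' + h), f n‖ := norm_sub_le _ _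
    _ ≤ h + h := add_le_add (b N) (b N')
    _ = 2 * h := by ring

theorem DYS (h1 : LOC_stmt) : DYS_stmt := by
  obtain ⟨C, hC, hloc⟩ := h1
  refine ⟨C + 5, by omega, ?_⟩
  intro l N N' t θ hl hN hNN' hN' ht1 ht2 hθ0 hθ1
  set Y : ℕ := ⌊(N : ℝ) ^ (2 / 5 : ℝ)⌋₊ with hYdef
  set F : ℝ := Real.exp (C * (l : ℝ) ^ 3) * (N : ℝ) ^ (-(1 / (C * (l : ℝ) ^ 6))) with hF
  have hN1 : (1 : ℝ) ≤ N := by exact_mod_cast hN
  have hN0 : (0 : ℝ) < N := by linarith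
  have hl1 : (1 : ℝ) ≤ l := by exact_mod_cast hl
  have hC0 : (0 : ℝ) < C := by exact_mod_cast hC
  have hF0 : 0 ≤ F := by positivity
  set P : ℝ := (N : ℝ) ^ (2 / 5 : ℝ) with hP
  have hP1 : 1 ≤ P := Real.one_le_rpow hN1 (by norm_num)
  have hYP : (Y : ℝ) ≤ P := Nat.floor_le (by positivity)
  have hPY : P / 2 ≤ Y := by
    have h2 : P < Y + 1 := Nat.lt_floor_add_one P
    have h3 : 1 ≤ Y := Nat.le_floor (by simpa using hP1)
    have h4 : (1 : ℝ) ≤ Y := by exact_mod_cast h3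
    linarith
  have hY0 : (0 : ℝ) < Y := by linarith
  have hPP : P * P = (N : ℝ) ^ (4 / 5 : ℝ) := by
    rw [hP, ← Real.rpow_add hN0]; norm_num
  set f : ℕ → ℂ := fun n => nit t (n + θ) with hf
  have hf1 : ∀ n, ‖f n‖ ≤ 1 := fun n => (DYS_norm t _).le
  set S : ℂ := ∑ n ∈ Ioc N N', f n with hS
  -- averaged identity
  have key1 : ‖∑ u ∈ Ioc 0 Y, ∑ v ∈ Ioc 0 Y, (S - ∑ n ∈ Ioc N N', f (n + u * v))‖ ≤
      (Y : ℝ) * (Y * (2 * (Y * Y))) := by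
    refine (norm_sum_le _ _).trans ?_
    have : ∀ u ∈ Ioc 0 Y, ‖∑ v ∈ Ioc 0 Y, (S - ∑ n ∈ Ioc N N', f (n + u * v))‖ ≤
        (Y : ℝ) * (2 * (Y * Y)) := by
      intro u hu
      refine (norm_sum_le _ _).trans ?_
      have h5 : ∀ v ∈ Ioc 0 Y, ‖S - ∑ n ∈ Ioc N N', f (n + u * v)‖ ≤ 2 * ((Y : ℝ) * Y) := by
        intro v hv
        refine (DYS_shift f hf1 N N' (u * v) hNN').trans ?_
        have hu' : (u : ℝ) ≤ Y := by exact_mod_cast (Finset.mem_Ioc.1 hu).2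
        have hv' : (v : ℝ) ≤ Y := by exact_mod_cast (Finset.mem_Ioc.1 hv).2
        push_cast
        have : (u : ℝ) * v ≤ Y * Y := mul_le_mul hu' hv' (by positivity) (by positivity)
        linarith
      refine (Finset.sum_le_sum h5).trans ?_
      simp
    refine (Finset.sum_le_sum this).trans ?_
    simp
  have key2 : ‖∑ u ∈ Ioc 0 Y, ∑ v ∈ Ioc 0 Y, ∑ n ∈ Ioc N N', f (n + u * v)‖ ≤
      N * ((N : ℝ) ^ (4 / 5 : ℝ) * F) := by
    have e5 : ∑ u ∈ Ioc 0 Y, ∑ v ∈ Ioc 0 Y, ∑ n ∈ Ioc N N', f (n + u * v) =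
        ∑ n ∈ Ioc N N', ∑ u ∈ Ioc 0 Y, ∑ v ∈ Ioc 0 Y, nit t (((n : ℝ) + θ) + (u : ℝ) * v) := by
      have e6 : ∀ u ∈ Ioc 0 Y, ∑ v ∈ Ioc 0 Y, ∑ n ∈ Ioc N N', f (n + u * v) =
          ∑ n ∈ Ioc N N', ∑ v ∈ Ioc 0 Y, f (n + u * v) := fun u _ => Finset.sum_comm
      rw [Finset.sum_congr rfl e6, Finset.sum_comm]
      refine Finset.sum_congr rfl fun n _ => Finset.sum_congr rfl fun u _ =>
        Finset.sum_congr rfl fun v _ => ?_
      simp only [hf]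
      congr 1
      push_cast
      ring
    rw [e5]
    refine (norm_sum_le _ _).trans ?_
    have h6 : ∀ n ∈ Ioc N N', ‖∑ u ∈ Ioc 0 Y, ∑ v ∈ Ioc 0 Y,
        nit t (((n : ℝ) + θ) + (u : ℝ) * v)‖ ≤ (N : ℝ) ^ (4 / 5 : ℝ) * F := by
      intro n hn
      obtain ⟨ha, hb⟩ := Finset.mem_Ioc.1 hn
      have ha' : (N : ℝ) ≤ n := by exact_mod_cast ha.le
      have hb' : (n : ℝ) ≤ 2 * N := by exact_mod_cast hb.trans hN'
      exact hloc l N t ((n : ℝ) + θ) hl hN ht1 ht2 (by linarith) (by linarith)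
    refine (Finset.sum_le_sum h6).trans ?_
    rw [Finset.sum_const, Nat.card_Ioc, nsmul_eq_mul]
    refine mul_le_mul_of_nonneg_right ?_ (by positivity)
    have : N' - N ≤ N := by omega
    exact_mod_cast this
  have key3 : (Y : ℝ) * Y * ‖S‖ ≤ N * ((N : ℝ) ^ (4 / 5 : ℝ) * F) + (Y : ℝ) * (Y * (2 * (Y * Y))) := by
    have e7 : ((Y : ℂ) * Y) * S = ∑ u ∈ Ioc 0 Y, ∑ v ∈ Ioc 0 Y, ∑ n ∈ Ioc N N', f (n + u * v) +
        ∑ u ∈ Ioc 0 Y, ∑ v ∈ Ioc 0 Y, (S - ∑ n ∈ Ioc N N', f (n + u * v)) := by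
      rw [← Finset.sum_add_distrib]
      have e8 : ∀ u ∈ Ioc 0 Y, (∑ v ∈ Ioc 0 Y, ∑ n ∈ Ioc N N', f (n + u * v) +
          ∑ v ∈ Ioc 0 Y, (S - ∑ n ∈ Ioc N N', f (n + u * v))) = (Y : ℂ) * S := by
        intro u _
        rw [← Finset.sum_add_distrib]
        have e9 : ∀ v ∈ Ioc 0 Y, (∑ n ∈ Ioc N N', f (n + u * v) +
            (S - ∑ n ∈ Ioc N N', f (n + u * v))) = S := fun v _ => by ring
        rw [Finset.sum_congr rfl e9]
        simp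
      rw [Finset.sum_congr rfl e8]
      simp [mul_assoc]
    have e10 : (Y : ℝ) * Y * ‖S‖ = ‖((Y : ℂ) * Y) * S‖ := by
      rw [norm_mul, norm_mul]
      simp
    rw [e10, e7]
    exact (norm_add_le _ _).trans (add_le_add key2 key1)
  -- numerics
  have hS0 : 0 ≤ ‖S‖ := norm_nonneg _
  have key4 : ‖S‖ ≤ 4 * N * F + 2 * (P * P) := by
    rw [← hPP] at key3
    have hYY : 0 < (Y : ℝ) * Y := by positivity
    have h7 : P * P ≤ 4 * ((Y : ℝ) * Y) := by nlinarith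
    have h8 : (Y : ℝ) * Y ≤ P * P := mul_le_mul hYP hYP hY0.le (by linarith)
    have h9 : N * (P * P * F) ≤ (Y : ℝ) * Y * (4 * N * F) := by
      have : 0 ≤ (N : ℝ) * F := by positivity
      nlinarith
    have h10 : (Y : ℝ) * (Y * (2 * (Y * Y))) ≤ (Y : ℝ) * Y * (2 * (P * P)) := by
      nlinarith
    have h11 : (Y : ℝ) * Y * ‖S‖ ≤ (Y : ℝ) * Y * (4 * N * F + 2 * (P * P)) := by
      calc (Y : ℝ) * Y * ‖S‖ ≤ N * (P * P * F) + (Y : ℝ) * (Y * (2 * (Y * Y))) := key3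
        _ ≤ (Y : ℝ) * Y * (4 * N * F) + (Y : ℝ) * Y * (2 * (P * P)) := add_le_add h9 h10
        _ = _ := by ring
    exact le_of_mul_le_mul_left h11 hYY
  refine key4.trans ?_
  have hl6 : (1 : ℝ) ≤ (l : ℝ) ^ 6 := one_le_pow₀ hl1
  have hl3 : (1 : ℝ) ≤ (l : ℝ) ^ 3 := one_le_pow₀ hl1
  set E : ℝ := (N : ℝ) ^ (-(1 / (((C + 5 : ℕ) : ℝ) * (l : ℝ) ^ 6))) with hE
  have hE0 : 0 < E := by positivity
  have hFE : F ≤ Real.exp (C * (l : ℝ) ^ 3) * E := by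
    rw [hF, hE]
    refine mul_le_mul_of_nonneg_left ?_ (Real.exp_pos _).le
    refine Real.rpow_le_rpow_of_exponent_le hN1 ?_
    rw [neg_le_neg_iff]
    refine one_div_le_one_div_of_le (by positivity) ?_
    refine mul_le_mul_of_nonneg_right ?_ (by positivity)
    push_cast
    linarith
  have hPE : P * P ≤ N * E := by
    rw [hPP, hE]
    have e11 : (N : ℝ) * (N : ℝ) ^ (-(1 / (((C + 5 : ℕ) : ℝ) * (l : ℝ) ^ 6))) =
        (N : ℝ) ^ (1 + -(1 / (((C + 5 : ℕ) : ℝ) * (l : ℝ) ^ 6))) := by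
      rw [Real.rpow_add hN0, Real.rpow_one]
    rw [e11]
    refine Real.rpow_le_rpow_of_exponent_le hN1 ?_
    have h12 : 1 / (((C + 5 : ℕ) : ℝ) * (l : ℝ) ^ 6) ≤ 1 / 5 := by
      refine one_div_le_one_div_of_le (by norm_num) ?_
      push_cast
      nlinarith
    linarith
  have hexp : 4 * Real.exp (C * (l : ℝ) ^ 3) + 2 ≤ Real.exp (((C + 5 : ℕ) : ℝ) * (l : ℝ) ^ 3) := by
    have h13 : Real.exp (((C + 5 : ℕ) : ℝ) * (l : ℝ) ^ 3) =
        Real.exp (C * (l : ℝ) ^ 3) * Real.exp (5 * (l : ℝ) ^ 3) := by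
      rw [← Real.exp_add]; congr 1; push_cast; ring
    have h14 : (6 : ℝ) ≤ Real.exp (5 * (l : ℝ) ^ 3) := by
      have := Real.add_one_le_exp (5 * (l : ℝ) ^ 3)
      linarith
    have h15 : 1 ≤ Real.exp (C * (l : ℝ) ^ 3) := Real.one_le_exp (by positivity)
    rw [h13]
    nlinarith
  calc 4 * N * F + 2 * (P * P) ≤ 4 * N * (Real.exp (C * (l : ℝ) ^ 3) * E) + 2 * (N * E) := by
        refine add_le_add (mul_le_mul_of_nonneg_left hFE (by positivity)) ?_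
        exact mul_le_mul_of_nonneg_left hPE (by norm_num)
    _ = N * E * (4 * Real.exp (C * (l : ℝ) ^ 3) + 2) := by ring
    _ ≤ N * E * Real.exp (((C + 5 : ℕ) : ℝ) * (l : ℝ) ^ 3) :=
        mul_le_mul_of_nonneg_left hexp (by positivity)
    _ = _ := by ring

end Pool.Agent.CH
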