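import Pool.Agent.helper17.CH.SpecQ

set_option autoImplicit false

namespace Pool.Agent.CH

open Finset ArithmeticFunction MeasureTheory

private theorem QI_norm (t x : ℝ) : ‖nit t x‖ = 1 := by
  unfold nit
  rw [Complex.norm_exp]
  simp

private theorem QI_cont (M : ℕ) (a : ℕ → ℂ) : Continuous (DPb M a) := by
  unfold DPb nit
  fun_prop

private theorem QI_aK {q : ℕ} (χ : DirichletCharacter ℂ q) (y : ℝ) (k : ℕ) : ‖aK χ y k‖ ≤ 1 := by
  unfold aK
  split_ifs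
  · exact DirichletCharacter.norm_le_one χ _
  · simp

private theorem QI_eq {q : ℕ} (χ : DirichletCharacter ℂ q) (z y : ℝ) (M : ℕ) (t : ℝ) :
    DPb M (aP χ z y) t =
      ∑ p ∈ Ico (max M ⌈z⌉₊) (min (2 * M) ⌈y⌉₊) with p.Prime, χ p * nit t p := by
  classical
  unfold DPb
  have e1 : ∑ m ∈ Ico M (2 * M), aP χ z y m * nit t m =
      ∑ m ∈ Ico M (2 * M), if P1 z y m then χ m * nit t m else 0 := by
    refine Finset.sum_congr rfl fun m _ => ?_
    unfold aP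
    split_ifs <;> simp
  rw [e1, ← Finset.sum_filter]
  refine Finset.sum_congr ?_ fun _ _ => rfl
  ext p
  simp only [Finset.mem_filter, Finset.mem_Ico, P1, max_le_iff, lt_min_iff, Nat.ceil_le, Nat.lt_ceil]
  tauto

private theorem QI_ev (C : ℝ) : ∃ N₀ : ℕ, ∀ N : ℕ, N₀ ≤ N → C ≤ Real.log N ∧ 1 ≤ Real.log N ∧
    2 ≤ (N : ℝ) ^ (1 / 42 : ℝ) ∧ 64 ≤ (N : ℝ) ^ (11 / 10 : ℝ) ∧ 1 ≤ N := by
  have hl : Filter.Tendsto (fun N : ℕ => Real.log (N : ℝ)) Filter.atTop Filter.atTop :=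
    Real.tendsto_log_atTop.comp tendsto_natCast_atTop_atTop
  have h1 : Filter.Tendsto (fun N : ℕ => (N : ℝ) ^ (1 / 42 : ℝ)) Filter.atTop Filter.atTop :=
    (tendsto_rpow_atTop (by norm_num)).comp tendsto_natCast_atTop_atTop
  have h2 : Filter.Tendsto (fun N : ℕ => (N : ℝ) ^ (11 / 10 : ℝ)) Filter.atTop Filter.atTop :=
    (tendsto_rpow_atTop (by norm_num)).comp tendsto_natCast_atTop_atTop
  have h := (hl.eventually_ge_atTop C).and ((hl.eventually_ge_atTop 1).and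
    ((h1.eventually_ge_atTop 2).and ((h2.eventually_ge_atTop 64).and (Filter.eventually_ge_atTop 1))))
  exact Filter.eventually_atTop.1 h

theorem QI (h1 : SUP_stmt) (h2 : MVT_stmt) : QI_stmt := by
  intro ε A B hε hε'
  obtain ⟨B₁, N₁, hS⟩ := h1 (1 / 7) (A + 1) B (by norm_num) (by norm_num)
  obtain ⟨C, hC, hV⟩ := h2
  obtain ⟨N₂, hE⟩ := QI_ev (73728 * C)
  refine ⟨B₁, max N₁ N₂, ?_⟩
  intro N hN q hq hqB χ z y hPZ M K hM hK hMK hMK'
  obtain ⟨hz, hzy, hy4, hy⟩ := hPZ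
  obtain ⟨hCL, hL1, h42, h64, hN1⟩ := hE N ((le_max_right _ _).trans hN)
  set L := Real.log (N : ℝ) with hL
  have hL0 : 0 < L := by linarith
  have hN1' : (1 : ℝ) ≤ N := by exact_mod_cast hN1
  have hN0 : (0 : ℝ) < N := by linarith
  have hM1 : (1 : ℝ) ≤ M := by exact_mod_cast hM
  have hK1 : (1 : ℝ) ≤ K := by exact_mod_cast hK
  have hR0 : 0 ≤ (N : ℝ) ^ 6 / L ^ A := by positivity
  by_cases hne : ∃ p ∈ Ico M (2 * M), P1 z y p
  swap
  · have h0 : ∀ t, DPb M (aP χ z y) t = 0 := by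
      intro t
      unfold DPb
      refine Finset.sum_eq_zero fun p hp => ?_
      have : ¬ P1 z y p := fun h => hne ⟨p, hp, h⟩
      unfold aP
      rw [if_neg this, zero_mul]
    simp only [h0]
    simpa using hR0
  obtain ⟨p, hp, hp1, hzp, hpy⟩ := hne
  rw [Finset.mem_Ico] at hp
  have hpM : (M : ℝ) ≤ p := by exact_mod_cast hp.1
  have hpM2 : (p : ℝ) < 2 * M := by exact_mod_cast hp.2
  have hMy : (M : ℝ) ≤ (N : ℝ) ^ (4 / 5 : ℝ) := by linarith
  have hzM : (N : ℝ) ^ (1 / 6 : ℝ) < 2 * M := by linarith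
  have e42 : (N : ℝ) ^ (1 / 6 : ℝ) = (N : ℝ) ^ (1 / 7 : ℝ) * (N : ℝ) ^ (1 / 42 : ℝ) := by
    rw [← Real.rpow_add hN0]
    norm_num
  have hM7 : (N : ℝ) ^ (1 / 7 : ℝ) ≤ M := by
    have h0 : (0 : ℝ) ≤ (N : ℝ) ^ (1 / 7 : ℝ) := by positivity
    have := mul_le_mul_of_nonneg_left h42 h0
    linarith
  -- `M ≤ 64 N^3`
  have hM64 : M ≤ 64 * N ^ 3 := (Nat.le_mul_of_pos_right M (by omega)).trans hMK'
  have hMKr : (N : ℝ) ^ 3 ≤ 64 * (M * K) := by exact_mod_cast hMK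
  have hMKr' : (M : ℝ) * K ≤ 64 * (N : ℝ) ^ 3 := by exact_mod_cast hMK'
  have e3 : (N : ℝ) ^ 3 = (N : ℝ) ^ (4 / 5 : ℝ) * ((N : ℝ) ^ (11 / 10 : ℝ) * (N : ℝ) ^ (11 / 10 : ℝ)) := by
    rw [← Real.rpow_add hN0, ← Real.rpow_add hN0, ← Real.rpow_natCast]
    norm_num
  have hKbig : (N : ℝ) ^ (11 / 10 : ℝ) ≤ K := by
    have hP : (0 : ℝ) < (N : ℝ) ^ (4 / 5 : ℝ) := by positivity
    have h11 : (0 : ℝ) < (N : ℝ) ^ (11 / 10 : ℝ) := by positivity
    have s1 : (N : ℝ) ^ (4 / 5 : ℝ) * ((N : ℝ) ^ (11 / 10 : ℝ) * (N : ℝ) ^ (11 / 10 : ℝ)) ≤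
        (N : ℝ) ^ (4 / 5 : ℝ) * (64 * K) := by
      rw [← e3]
      refine hMKr.trans ?_
      nlinarith
    have s2 := le_of_mul_le_mul_left s1 hP
    nlinarith
  set T : ℝ := (N : ℝ) ^ (1 + 2 * ε) with hT
  have hT1 : 1 ≤ T := Real.one_le_rpow hN1' (by linarith)
  have hTK : T ≤ K :=
    (Real.rpow_le_rpow_of_exponent_le hN1' (by linarith)).trans hKbig
  have hT2 : T ≤ (N : ℝ) ^ 2 := by
    rw [← Real.rpow_natCast]
    refine Real.rpow_le_rpow_of_exponent_le hN1' ?_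
    push_cast
    linarith
  set S : ℝ := M / L ^ (A + 1) with hSd
  have hS0 : 0 ≤ S := by positivity
  have hsup : ∀ t ∈ Tset ε B₁ N, ‖DPb M (aP χ z y) t‖ ≤ S := by
    intro t ht
    rw [QI_eq]
    exact (hS N ((le_max_left _ _).trans hN) q hq hqB χ t ht.1 (ht.2.trans hT2)).2.2 M _ _ hM7 hM64
      (le_max_left _ _) (min_le_left _ _)
  have hcl : IsClosed (Tset ε B₁ N) := by
    unfold Tset
    exact (isClosed_le continuous_const continuous_abs).inter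
      (isClosed_le continuous_abs continuous_const)
  have hms : MeasurableSet (Tset ε B₁ N) := hcl.measurableSet
  have hsub : Tset ε B₁ N ⊆ Set.Icc (-T) T := fun t ht => abs_le.1 ht.2
  have hcM := QI_cont M (aP χ z y)
  have hcK := QI_cont K (aK χ y)
  have i1 : IntegrableOn (fun t => ‖DPb M (aP χ z y) t‖ ^ 2 * ‖DPb K (aK χ y) t‖ ^ 2)
      (Tset ε B₁ N) :=
    ((by fun_prop : Continuous (fun t => ‖DPb M (aP χ z y) t‖ ^ 2 *
      ‖DPb K (aK χ y) t‖ ^ 2)).integrableOn_Icc (a := -T) (b := T)).mono_set hsub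
  have i2 : IntegrableOn (fun t => S ^ 2 * ‖DPb K (aK χ y) t‖ ^ 2) (Set.Icc (-T) T) :=
    (by fun_prop : Continuous (fun t => S ^ 2 * ‖DPb K (aK χ y) t‖ ^ 2)).integrableOn_Icc
  have step1 : ∫ t in Tset ε B₁ N, ‖DPb M (aP χ z y) t‖ ^ 2 * ‖DPb K (aK χ y) t‖ ^ 2 ≤
      ∫ t in Tset ε B₁ N, S ^ 2 * ‖DPb K (aK χ y) t‖ ^ 2 := by
    refine setIntegral_mono_on i1 (i2.mono_set hsub) hms fun t ht => ?_
    exact mul_le_mul_of_nonneg_right (pow_le_pow_left₀ (norm_nonneg _) (hsup t ht) 2) (by positivity)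
  have step2 : ∫ t in Tset ε B₁ N, S ^ 2 * ‖DPb K (aK χ y) t‖ ^ 2 ≤
      ∫ t in Set.Icc (-T) T, S ^ 2 * ‖DPb K (aK χ y) t‖ ^ 2 := by
    refine setIntegral_mono_set i2 ?_ (Filter.Eventually.of_forall hsub)
    exact Filter.Eventually.of_forall fun t => by positivity
  have step3 : ∫ t in Set.Icc (-T) T, S ^ 2 * ‖DPb K (aK χ y) t‖ ^ 2 =
      S ^ 2 * ∫ t in (-T)..T, ‖DPb K (aK χ y) t‖ ^ 2 := by
    rw [integral_Icc_eq_integral_Ioc, ← intervalIntegral.integral_of_le (by linarith),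
      intervalIntegral.integral_const_mul]
  have step4 : ∫ t in (-T)..T, ‖DPb K (aK χ y) t‖ ^ 2 ≤ C * (T + K) * (1 + Real.log K) * K := by
    refine (hV T K (aK χ y) hT1 hK).trans ?_
    have hs : ∑ k ∈ Ico K (2 * K), ‖aK χ y k‖ ^ 2 ≤ K := by
      refine (Finset.sum_le_sum (g := fun _ => (1 : ℝ)) fun k _ => ?_).trans ?_
      · exact pow_le_one₀ (norm_nonneg _) (QI_aK χ y k)
      · simp [two_mul]
    have hlK : 0 ≤ Real.log K := Real.log_nonneg hK1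
    exact mul_le_mul_of_nonneg_left hs (by positivity)
  have hlogK : 1 + Real.log K ≤ 9 * L := by
    have hKle : (K : ℝ) ≤ 64 * (N : ℝ) ^ 3 := by
      refine le_trans ?_ hMKr'
      nlinarith
    have hle := Real.log_le_log (by linarith) hKle
    rw [Real.log_mul (by norm_num) (by positivity), Real.log_pow] at hle
    have h64' : Real.log 64 ≤ 5 := by
      have : (64 : ℝ) = 2 ^ 6 := by norm_num
      rw [this, Real.log_pow]
      have := Real.log_two_lt_d9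
      push_cast
      linarith
    push_cast at hle
    rw [← hL] at hle
    linarith
  have hfin : S ^ 2 * (C * (T + K) * (1 + Real.log K) * K) ≤ (N : ℝ) ^ 6 / L ^ A := by
    have hlK : 0 ≤ Real.log K := Real.log_nonneg hK1
    have g1 : C * (T + K) * (1 + Real.log K) * K ≤ C * (2 * K) * (9 * L) * K := by
      gcongr
      linarith
    have g2 : S ^ 2 * (C * (2 * K) * (9 * L) * K) = 18 * C * L * (M * K) ^ 2 / L ^ (2 * A + 2) := by
      rw [hSd, div_pow, ← pow_mul]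
      have : (A + 1) * 2 = 2 * A + 2 := by ring
      rw [this]
      ring
    have g3 : 18 * C * L * (M * K) ^ 2 / L ^ (2 * A + 2) ≤
        18 * C * L * (64 * (N : ℝ) ^ 3) ^ 2 / L ^ (2 * A + 2) := by
      gcongr
    have g4 : 18 * C * L * (64 * (N : ℝ) ^ 3) ^ 2 / L ^ (2 * A + 2) =
        73728 * C * (L * (N : ℝ) ^ 6) / L ^ (2 * A + 2) := by ring
    have g5 : 73728 * C * (L * (N : ℝ) ^ 6) / L ^ (2 * A + 2) ≤
        L * (L * (N : ℝ) ^ 6) / L ^ (2 * A + 2) := by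
      gcongr
    have g6 : L * (L * (N : ℝ) ^ 6) / L ^ (2 * A + 2) = (N : ℝ) ^ 6 / L ^ (2 * A) := by
      rw [pow_add]
      field_simp
    have g7 : (N : ℝ) ^ 6 / L ^ (2 * A) ≤ (N : ℝ) ^ 6 / L ^ A := by
      refine div_le_div_of_nonneg_left (by positivity) (by positivity) ?_
      exact pow_le_pow_right₀ hL1 (by omega)
    calc S ^ 2 * (C * (T + K) * (1 + Real.log K) * K)
        ≤ S ^ 2 * (C * (2 * K) * (9 * L) * K) := mul_le_mul_of_nonneg_left g1 (by positivity)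
      _ ≤ (N : ℝ) ^ 6 / L ^ A := by
          rw [g2]
          refine g3.trans ?_
          rw [g4]
          refine g5.trans ?_
          rw [g6]
          exact g7
  calc ∫ t in Tset ε B₁ N, ‖DPb M (aP χ z y) t‖ ^ 2 * ‖DPb K (aK χ y) t‖ ^ 2
      ≤ ∫ t in Tset ε B₁ N, S ^ 2 * ‖DPb K (aK χ y) t‖ ^ 2 := step1
    _ ≤ ∫ t in Set.Icc (-T) T, S ^ 2 * ‖DPb K (aK χ y) t‖ ^ 2 := step2
    _ = S ^ 2 * ∫ t in (-T)..T, ‖DPb K (aK χ y) t‖ ^ 2 := step3
    _ ≤ S ^ 2 * (C * (T + K) * (1 + Real.log K) * K) :=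
        mul_le_mul_of_nonneg_left step4 (by positivity)
    _ ≤ (N : ℝ) ^ 6 / L ^ A := hfin

end Pool.Agent.CH
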